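import Pool.Agent.helper45.SGC.Spec

set_option autoImplicit false

namespace Pool.Agent.SGC

open Finset Pool.Agent.helper38.Neg Pool.Agent.helper55.NT

theorem AVE : AVE_stmt := by
  classical
  intro r W K F M f h1 h2 b
  set Mf : Finset (Fin r → ZMod 2) := univ.filter fun m => m ∈ M with hMf
  have hpos : 0 < Mf.card := card_pos.2 ⟨0, by simp [hMf]⟩
  have hsum : ∀ b' : Fin r → ZMod 2, ∑ m ∈ Mf, (K.filter fun h => F h (b' + m) = true).card =
      Mf.card * (K.filter fun h => F h b' = true).card := by
    intro b'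
    rw [sum_congr rfl fun m hm => h1 b' m (mem_filter.1 hm).2, sum_const, smul_eq_mul]
  have hex : ∀ b' : Fin r → ZMod 2, ∑ m ∈ Mf, (K.filter fun h => F h (b' + m) = true).card =
      ∑ h ∈ K, ∑ m ∈ Mf, if F h (b' + m) = true then 1 else 0 := by
    intro b'
    rw [sum_comm]
    exact sum_congr rfl fun m _ => card_filter _ _
  have hkey : ∑ m ∈ Mf, (K.filter fun h => F h (b + Pi.single f 1 + m) = true).card =
      ∑ m ∈ Mf, (K.filter fun h => F h (b + m) = true).card := by
    rw [hex, hex]
    refine sum_congr rfl fun h hh => ?_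
    obtain ⟨f', hf', hF⟩ := h2 h hh
    refine sum_equiv (Equiv.addRight (Pi.single f 1 + Pi.single f' 1)) ?_ ?_
    · intro m
      simp only [hMf, mem_filter, mem_univ, true_and, Equiv.coe_addRight]
      exact (M.add_mem_iff_left hf').symm
    · intro m _
      have h3 : b + (m + (Pi.single f 1 + Pi.single f' 1)) = b + Pi.single f 1 + m + Pi.single f' 1 := by
        abel
      have h4 : F h (b + Pi.single f 1 + m) =
          F h (b + (Equiv.addRight (Pi.single f 1 + Pi.single f' 1)) m) := by
        rw [Equiv.coe_addRight, h3, hF]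
      simp only [h4]
  rw [hsum, hsum] at hkey
  exact Nat.eq_of_mul_eq_mul_left hpos hkey

end Pool.Agent.SGC
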