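import Pool.Agent.helper45.SGC.Spec

set_option autoImplicit false

namespace Pool.Agent.SGC

open Finset Pool.Agent.helper38.Neg Pool.Agent.helper55.NT

theorem CNT (hCNA : CNA_stmt) (hCNB : CNB_stmt) (hBIA : BIA_stmt) : CNT_stmt := by
  intro h T S
  have h1 := hCNA h T S
  set κ := (univ.filter fun σ : Fin h × Fin 2 ≃ Fin (2 * h) => pat σ T = S).card with hκ
  set N := (univ.filter fun T' : Finset (Fin h × Fin 2) => T'.card = T.card ∧
    pat (Equiv.refl _) T' = S).card with hN
  set c := (2 * h).choose T.card with hc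
  have hT : T.card ≤ 2 * h := by
    have := card_le_univ T
    simpa using this
  have hcpos : 0 < c := Nat.choose_pos hT
  have hN2 : N ^ 2 ≤ (2 * h + 1) * c := by
    rcases hCNB h T.card S with h2 | ⟨q, hq, h2⟩
    · rw [← hN] at h2
      rw [h2]
      exact Nat.zero_le _
    · rw [← hN] at h2
      have hS : S.card ≤ h := by
        have := card_le_univ S
        simpa using this
      have h3 := hBIA h S.card q hS
      rw [hq] at h3
      exact le_trans (Nat.pow_le_pow_left h2 2) h3
  have h4 : (κ ^ 2 * c) * c ≤ ((2 * h + 1) * (2 * h).factorial ^ 2) * c := by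
    calc (κ ^ 2 * c) * c = (κ * c) ^ 2 := by ring
      _ = ((2 * h).factorial * N) ^ 2 := by rw [h1]
      _ = (2 * h).factorial ^ 2 * N ^ 2 := by ring
      _ ≤ (2 * h).factorial ^ 2 * ((2 * h + 1) * c) := Nat.mul_le_mul_left _ hN2
      _ = ((2 * h + 1) * (2 * h).factorial ^ 2) * c := by ring
  exact Nat.le_of_mul_le_mul_right h4 hcpos

end Pool.Agent.SGC
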